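import Pool.Agent.L5helper98.NG.Defs

/-!
# Two sided bounds of exponential moments (piece MG)
-/

set_option autoImplicit false

open MeasureTheory ProbabilityTheory Filter Topology Set
open scoped ENNReal

namespace Pool.Agent.L5helper49.NG

open Pool.Agent.L5helper98.NG

lemma meas_joint {d : ℕ} {Ω : Type} [MeasurableSpace Ω] (Z : Ω → (Fin d → ℝ) → ℝ)
    (hm : ∀ x, Measurable fun o => Z o x) (hc : ∀ o, Continuous (Z o)) :
    Measurable (fun p : Ω × (Fin d → ℝ) => Z p.1 p.2) :=
  (measurable_uncurry_of_continuous_of_measurable (u := fun x o => Z o x) hc hm).comp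
    measurable_swap

lemma meas_int {d : ℕ} {Ω : Type} [MeasurableSpace Ω] (Z : Ω → (Fin d → ℝ) → ℝ)
    (hm : ∀ x, Measurable fun o => Z o x) (hc : ∀ o, Continuous (Z o))
    (ρ : Measure (Fin d → ℝ)) [SFinite ρ] : Measurable fun o => ∫ x, Z o x ∂ρ :=
  (meas_joint Z hm hc).stronglyMeasurable.integral_prod_right'.measurable

lemma sq_le_exp (t : ℝ) : t ^ 2 / 2 ≤ Real.exp t + Real.exp (-t) := by
  have h1 := Real.exp_pos t
  have h2 := Real.exp_pos (-t)
  rcases le_total 0 t with h | h
  · have := Real.quadratic_le_exp_of_nonneg h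
    linarith
  · have := Real.quadratic_le_exp_of_nonneg (neg_nonneg.2 h)
    nlinarith

lemma mul_le_exp (s t : ℝ) : |s * t| ≤ Real.exp (1 * s) + Real.exp (-1 * s) +
    (Real.exp (1 * t) + Real.exp (-1 * t)) := by
  have h1 := sq_le_exp s
  have h2 := sq_le_exp t
  rw [one_mul, one_mul, neg_one_mul, neg_one_mul, abs_mul]
  nlinarith [sq_nonneg (|s| - |t|), sq_abs s, sq_abs t]

theorem MG_holds (h1 : St_ONE) : St_MG := by
  intro d Ω _ P _ X hF L hL
  obtain ⟨e, B3, he, hB3⟩ := hF.third
  choose B hB using hF.expo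
  obtain ⟨C1, hC1, hone⟩ := h1 d e L B he hL
  have h0 : (0 : Fin d → ℝ) ∈ cube d := ⟨le_refl _, fun i => zero_le_one⟩
  have hB30 : 0 ≤ B3 := by simpa using hB3 0 0 h0
  refine ⟨C1 * (B3 * L), by positivity, fun n ρ hρ hρL => ?_⟩
  haveI : IsFiniteMeasure ρ := ⟨hρL.trans_lt ENNReal.ofReal_lt_top⟩
  have hae : ∀ᵐ x ∂ρ, x ∈ cube d := by
    rw [ae_iff]
    exact hρ
  have hρr : ρ.real univ ≤ L := by
    rw [Measure.real]
    exact ENNReal.toReal_le_of_le_ofReal hL hρL
  have hcomp : IsCompact (cube d) := isCompact_Icc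
  have hXi : ∀ k o, Integrable (X k o) ρ := by
    intro k o
    obtain ⟨K, hK⟩ := hcomp.exists_bound_of_continuousOn (hF.cont k o).continuousOn
    refine Integrable.of_bound (hF.cont k o).aestronglyMeasurable K ?_
    filter_upwards [hae] with x hx using hK x hx
  set Y : ℕ → Ω → ℝ := fun k o => ∫ x, X k o x ∂ρ with hY
  have hsum : ∀ o, ∫ x, S X n o x ∂ρ = ∑ k ∈ Finset.range n, Y k o := by
    intro o
    unfold S
    exact integral_finsetSum _ fun k _ => hXi k o
  have hYm : ∀ k, Measurable (Y k) := fun k => meas_int (X k) (hF.meas k) (hF.cont k) ρ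
  have hYs : ∀ k, @Measurable Ω ℝ (sg X k) _ (Y k) := by
    intro k
    refine @meas_int d Ω (sg X k) (X k) (fun x => ?_) (hF.cont k) ρ _
    have hle : MeasurableSpace.comap (fun o => X k o x) inferInstance ≤ sg X k :=
      le_iSup (fun x : Fin d → ℝ => MeasurableSpace.comap (fun o => X k o x) inferInstance) x
    exact (comap_measurable (fun o => X k o x)).mono hle le_rfl
  have hind : iIndepFun Y P :=
    iIndep_of_iIndep_of_le hF.indep fun k => (hYs k).comap_le
  have hk := fun k => hone Ω P (X k) (hF.meas k) (hF.cont k) (hF.mean k)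
    (fun a x hx => hB a k x hx) ρ hρ hρL
  have hexpi : ∀ k, Integrable (fun o => Real.exp (Y k o)) P := fun k => (hk k).1
  have hint : Integrable (fun o => Real.exp (∑ k ∈ Finset.range n, Y k o)) P := by
    have h2 := hind.integrable_exp_mul_sum (t := 1) hYm (s := Finset.range n)
      (fun k _ => by simpa using hexpi k)
    simpa using h2
  have hprod : ∫ o, Real.exp (∑ k ∈ Finset.range n, Y k o) ∂P =
      ∏ k ∈ Finset.range n, ∫ o, Real.exp (Y k o) ∂P := by
    have h2 := hind.mgf_sum (t := 1) hYm (Finset.range n)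
    simpa [mgf] using h2
  have hpos : ∀ k, 0 < ∫ o, Real.exp (Y k o) ∂P := fun k => integral_exp_pos (hexpi k)
  -- the correlations
  set f : ℕ → (Fin d → ℝ) → (Fin d → ℝ) → ℝ := fun k x y => ∫ o, X k o x * X k o y ∂P with hf
  set g : ℕ → (Fin d → ℝ) → ℝ := fun k x => (∫ o, |X k o x| ^ (3 + e) ∂P) ^ (3 / (3 + e)) with hg
  set K : ℝ := B 1 + B (-1) + (B 1 + B (-1)) with hK
  have hfb : ∀ k, ∀ x ∈ cube d, ∀ y ∈ cube d, ‖f k x y‖ ≤ K := by
    intro k x hx y hy
    have e1 := hB 1 k x hx
    have e2 := hB (-1) k x hx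
    have e3 := hB 1 k y hy
    have e4 := hB (-1) k y hy
    refine (norm_integral_le_of_norm_le ((e1.1.add e2.1).add (e3.1.add e4.1))
      (Filter.Eventually.of_forall fun o => ?_)).trans ?_
    · rw [Real.norm_eq_abs]
      exact mul_le_exp _ _
    · rw [integral_add' (e1.1.add e2.1) (e3.1.add e4.1), integral_add' e1.1 e2.1,
        integral_add' e3.1 e4.1]
      linarith [e1.2, e2.2, e3.2, e4.2]
  have hfm : ∀ k, Measurable (fun p : (Fin d → ℝ) × (Fin d → ℝ) => f k p.1 p.2) := by
    intro k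
    have hj := meas_joint (X k) (hF.meas k) (hF.cont k)
    have h2 : Measurable (fun q : ((Fin d → ℝ) × (Fin d → ℝ)) × Ω =>
        X k q.2 q.1.1 * X k q.2 q.1.2) := by
      refine Measurable.mul ?_ ?_
      · exact hj.comp (measurable_snd.prodMk (measurable_fst.comp measurable_fst))
      · exact hj.comp (measurable_snd.prodMk (measurable_snd.comp measurable_fst))
    exact h2.stronglyMeasurable.integral_prod_right'.measurable
  have hfi : ∀ k, ∀ x ∈ cube d, Integrable (fun y => f k x y) ρ := by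
    intro k x hx
    refine Integrable.of_bound ((hfm k).comp
      (measurable_const.prodMk measurable_id)).aestronglyMeasurable K ?_
    filter_upwards [hae] with y hy using hfb k x hx y hy
  have hfj : ∀ k, Integrable (fun x => ∫ y, f k x y ∂ρ) ρ := by
    intro k
    refine Integrable.of_bound
      (hfm k).stronglyMeasurable.integral_prod_right'.aestronglyMeasurable (K * L) ?_
    filter_upwards [hae] with x hx
    have hK0 : 0 ≤ K := (norm_nonneg _).trans (hfb k x hx x hx)
    refine (norm_integral_le_of_norm_le_const (C := K) ?_).trans ?_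
    · filter_upwards [hae] with y hy using hfb k x hx y hy
    · exact mul_le_mul_of_nonneg_left hρr hK0
  have hCv : ∫ x, ∫ y, Cv P X n x y ∂ρ ∂ρ =
      ∑ k ∈ Finset.range n, ∫ x, ∫ y, f k x y ∂ρ ∂ρ := by
    rw [← integral_finsetSum _ fun k _ => hfj k]
    refine integral_congr_ae ?_
    filter_upwards [hae] with x hx
    unfold Cv
    exact integral_finsetSum _ fun k _ => hfi k x hx
  have hg0 : ∀ k x, 0 ≤ g k x := fun k x => by
    rw [hg]
    positivity
  have hgb : ∀ k, ∀ x ∈ cube d, ‖g k x‖ ≤ B3 := by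
    intro k x hx
    rw [Real.norm_eq_abs, abs_of_nonneg (hg0 k x)]
    refine le_trans ?_ (hB3 (k + 1) x hx)
    exact Finset.single_le_sum (f := fun k => g k x) (fun j _ => hg0 j x)
      (Finset.mem_range.2 (Nat.lt_succ_self k))
  have hgm : ∀ k, Measurable (g k) := by
    intro k
    have hj := meas_joint (X k) (hF.meas k) (hF.cont k)
    have h2 : Measurable (fun q : (Fin d → ℝ) × Ω => |X k q.2 q.1| ^ (3 + e)) :=
      ((hj.comp (measurable_snd.prodMk measurable_fst)).abs).pow_const _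
    exact (h2.stronglyMeasurable.integral_prod_right'.measurable).pow_const _
  have hgi : ∀ k, Integrable (g k) ρ := fun k =>
    Integrable.of_bound (hgm k).aestronglyMeasurable B3 (by
      filter_upwards [hae] with x hx using hgb k x hx)
  have hgs : ∑ k ∈ Finset.range n, ∫ x, g k x ∂ρ ≤ B3 * L := by
    rw [← integral_finsetSum _ fun k _ => hgi k]
    have h2 : ∫ x, ∑ k ∈ Finset.range n, g k x ∂ρ ≤ ∫ _, B3 ∂ρ := by
      refine integral_mono_ae (integrable_finsetSum _ fun k _ => hgi k)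
        (integrable_const _) ?_
      filter_upwards [hae] with x hx using hB3 n x hx
    refine h2.trans ?_
    rw [integral_const, smul_eq_mul, mul_comm]
    exact mul_le_mul_of_nonneg_left hρr hB30
  have hlog : |Real.log (∫ o, Real.exp (∑ k ∈ Finset.range n, Y k o) ∂P) -
      (1 / 2) * ∫ x, ∫ y, Cv P X n x y ∂ρ ∂ρ| ≤ C1 * (B3 * L) := by
    rw [hprod, Real.log_prod fun k _ => (hpos k).ne', hCv, Finset.mul_sum,
      ← Finset.sum_sub_distrib]
    calc |∑ k ∈ Finset.range n, (Real.log (∫ o, Real.exp (Y k o) ∂P) -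
          1 / 2 * ∫ x, ∫ y, f k x y ∂ρ ∂ρ)|
        ≤ ∑ k ∈ Finset.range n, |Real.log (∫ o, Real.exp (Y k o) ∂P) -
          1 / 2 * ∫ x, ∫ y, f k x y ∂ρ ∂ρ| := Finset.abs_sum_le_sum_abs _ _
      _ ≤ ∑ k ∈ Finset.range n, C1 * ∫ x, g k x ∂ρ := Finset.sum_le_sum fun k _ => (hk k).2
      _ = C1 * ∑ k ∈ Finset.range n, ∫ x, g k x ∂ρ := by rw [Finset.mul_sum]
      _ ≤ C1 * (B3 * L) := mul_le_mul_of_nonneg_left hgs hC1
  have hP0 : 0 < ∫ o, Real.exp (∑ k ∈ Finset.range n, Y k o) ∂P := by
    rw [hprod]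
    exact Finset.prod_pos fun k _ => hpos k
  have hab := abs_le.1 hlog
  refine ⟨?_, ?_, ?_⟩
  · simpa only [hsum] using hint
  · simp only [hsum]
    rw [← Real.le_log_iff_exp_le hP0]
    linarith [hab.1]
  · simp only [hsum]
    rw [← Real.log_le_iff_le_exp hP0]
    linarith [hab.2]

end Pool.Agent.L5helper49.NG
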